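import Pool.Agent.AT6.Stmts4
import Pool.Agent.AT2.Stmts
import Pool.Agent.Helper38_AT3.POS
import Pool.Agent.Helper3_K9.Lbd
import Pool.Agent.Helper75_PP.Fin0
import Pool.Agent.Helper50_PP.Bid
import Pool.Agent.Helper50_PP.Ldp
import Pool.Agent.Helper50_PP.Dic
import Pool.Agent.Helper50_PP.Ffa
import Pool.Agent.Helper20_PP.Nls
import Pool.Agent.Helper20_PP.Ibr
import Pool.Agent.Helper63_PP.Smt
import Pool.Agent.Helper94_PP.Nch
import Pool.Agent.Helper96_PP.Trn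
import Pool.Agent.Helper9_PP.Add
import Pool.Agent.Helper79_WRA.Tower

/-!
# Squad AT6, row T6A: the main theorem for block idempotents
-/

open scoped BigOperators

noncomputable section

namespace Pool.Agent.PP.T6.H55

open Pool.Agent.Helper51_AWC Pool.Agent.Helper79_WRA Pool.Agent.PP Pool.Agent.PP.KF
open Pool.Agent.PP.K9 Pool.Agent.PP.K9.H97 Pool.Agent.PP.H75 Pool.Agent.PP.T3 Pool.Agent.PP.T2

attribute [local instance] Ideal.Quotient.field

theorem t6a (hLB6 : Lb6Stmt) (hRKA : RkaStmt) (hFST : T2.FstStmt) (hTES : T2.TesStmt)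
    (hDVX : T2.DvxStmt) : T6aStmt := by
  intro ℓ hℓ M _ hM a r ha har
  have hF : GoodF ℓ (FF M) := H50.fld ℓ Fact.out M hM
  suffices hmain : ∀ n : ℕ, ∀ (G : Type) [Group G] [Finite G], Nat.card G = n →
      ∀ (e : G → FF M) (V : Subgroup G) (γ : G → FF M), Ld ℓ e V γ → Monoid.exponent V = ℓ ^ a →
      Nat.card V ≤ ℓ ^ r * Nat.card (Uw ℓ V) → YY ℓ ⊤ e = 0 by
    intro G _ _ e V γ h1 h2 h3
    exact hmain _ G rfl e V γ h1 h2 h3
  intro n
  induction n using Nat.strong_induction_on with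
  | _ n ih =>
  intro G _ _ hn e V γ hL hE hR
  by_cases hO : opCore ℓ G = ⊥
  swap
  · exact H96.yzr ℓ (FF M) hℓ.out G ⊤ inferInstance (opCore_top_ne rfl hO) e
  have hq : ∀ (H : Type) [Group H] [Finite H] (V' : Subgroup H),
      (∃ π : V →* V', Function.Surjective π) → Nat.card V' ≤ ℓ ^ r * Nat.card (Uw ℓ V') :=
    (hRKA ℓ G V hL.tp.pg hL.ab r hR).2.2.1
  have hIh : Ih M ℓ a (Nat.card G) V (ix V γ) := by
    intro A _ _ hA f V' γ' hL' he hπ _
    exact ih (Nat.card A) (hn ▸ hA) A rfl f V' γ' hL' he (hq A V' hπ)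
  obtain ⟨f, hf⟩ := hFST ℓ M hM G e V γ hL (ℓ ^ (a - 1))
  have h1 := hTES ℓ M hM G e V γ hL a ha hE _ rfl f hf hIh
  set U : Subgroup G := Uw (ℓ ^ (a - 1)) V with hU
  have hVX : V ≤ Subgroup.normalizer (U : Set G) := Subgroup.le_normalizer.trans hf.nle
  have eV : V.subgroupOf (Subgroup.normalizer (U : Set G)) ≃* V :=
    Subgroup.subgroupOfEquivOfLe hVX
  have hR' : Nat.card (V.subgroupOf (Subgroup.normalizer (U : Set G))) ≤
      ℓ ^ r * Nat.card (Uw ℓ (V.subgroupOf (Subgroup.normalizer (U : Set G)))) :=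
    hq _ _ ⟨eV.symm.toMonoidHom, eV.symm.surjective⟩
  have hpow : ℓ ^ (2 * r ^ 4 + 39 * r ^ 2) ≤ ℓ ^ a :=
    Nat.pow_le_pow_right hℓ.out.pos har
  have h2 := (hLB6 ℓ M hM r G e V γ hL hR).trans hpow
  have h3 := (hLB6 ℓ M hM r _ _ _ _ hf.ld hR').trans hpow
  obtain ⟨a1, -⟩ := H3.lbd ℓ M hM G e hL.blk.1 hL.blk.2.1
  obtain ⟨b1, -⟩ := H3.lbd ℓ M hM _ _ hf.ld.blk.1 hf.ld.blk.2.1
  have a2 : 1 ≤ ln e := a1
  have b2 : 1 ≤ ln (fun t : Subgroup.normalizer (U : Set G) => f t) := b1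
  obtain ⟨z, hz⟩ : ∃ z : V, orderOf z = Monoid.exponent V := by
    let _ : CommGroup V := { (inferInstance : Group V) with
      mul_comm := fun x y => Subtype.ext (hL.ab x x.2 y y.2) }
    exact Monoid.exists_orderOf_eq_exponent (Monoid.ExponentExists.of_finite)
  have hz' : orderOf (z : G) = ℓ ^ a := by
    rw [← hE, ← hz, Subgroup.orderOf_coe]
  have hV : V ≠ ⊥ := by
    intro hb
    have h5 : (z : G) = 1 := Subgroup.mem_bot.1 (hb ▸ z.2 : (z : G) ∈ (⊥ : Subgroup G))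
    rw [h5, orderOf_one] at hz'
    have h6 : 1 < ℓ ^ a := Nat.one_lt_pow ha.ne' hℓ.out.one_lt
    omega
  obtain ⟨χ, hχ, r1, -, r3⟩ := H75.block_case H20.nls H20.brm H63.smt H94.nch
    (H50.dic H20.ibn H20.nls H20.brm) H50.bid H50.chp H50.ldp H50.fld hℓ.out hM hO hL.blk
    (T3.H38.pos ℓ (FF M) hF G e hL.blk V hL.tp.pg hV hL.tp.gd)
  have h4 := hDVX ℓ M hM G hO e V γ hL hV χ hχ r1 z z.2
  rw [hz'] at h4
  rw [h1] at r3
  have h7 : (Nat.card G : ℤ) ≠ 0 := by exact_mod_cast Nat.card_pos.ne'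
  have h8 := mul_left_cancel₀ h7 r3
  have h9 : (ln e : ℤ) - ln (fun t : Subgroup.normalizer (U : Set G) => f t) = 0 := by
    rw [h8] at h4
    refine Int.eq_zero_of_abs_lt_dvd h4 ?_
    rw [abs_lt]
    push_cast
    have h2' : (ln e : ℤ) ≤ (ℓ : ℤ) ^ a := by exact_mod_cast h2
    have h3' : (ln (fun t : Subgroup.normalizer (U : Set G) => f t) : ℤ) ≤ (ℓ : ℤ) ^ a := by
      exact_mod_cast h3
    have a2' : (1 : ℤ) ≤ (ln e : ℤ) := by exact_mod_cast a2
    have b2' : (1 : ℤ) ≤ (ln (fun t : Subgroup.normalizer (U : Set G) => f t) : ℤ) := by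
      exact_mod_cast b2
    constructor <;> linarith
  rw [h1, h9, mul_zero]

end Pool.Agent.PP.T6.H55
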